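import Pool.Agent.H708Z.GSUnif

set_option autoImplicit false

namespace Pool.Agent.Results.MP_763321_co.HalfGraphFree

/-- The half graph of order `n`: vertices `a i` (left copy) and `b j` (right copy), with `a i`
adjacent to `b j` exactly when `i ≤ j`, and no other edges. -/
def halfGraph (n : ℕ) : SimpleGraph (Fin n ⊕ Fin n) :=
  SimpleGraph.fromRel (fun x y => ∃ i j : Fin n, x = Sum.inl i ∧ y = Sum.inr j ∧ i ≤ j)

/-- For every forest `F` and every `n`, the graphs with no induced `F` and no induced half graph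
of order `n` form a chi-bounded class. -/
theorem result :
    ∀ (m : ℕ) (F : SimpleGraph (Fin m)), F.IsAcyclic → ∀ n : ℕ,
      ∃ f : ℕ → ℕ, ∀ (V : Type) [Fintype V] (G : SimpleGraph V),
        IsEmpty (F ↪g G) → IsEmpty (halfGraph n ↪g G) →
        G.chromaticNumber ≤ (f G.cliqueNum : ℕ∞) := by
  intro m F hF n
  choose c hc using fun k => Pool.Agent.H708Z.GS.uniform_forest.{0} hF n k
  refine ⟨fun k => c (k + 1), fun V _ G h1 h2 => ?_⟩
  refine SimpleGraph.Colorable.chromaticNumber_le
    (hc _ V G (not_nonempty_iff.2 h1) (not_nonempty_iff.2 h2) ?_)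
  intro s hs
  have := hs.isClique.card_le_cliqueNum
  rw [hs.card_eq] at this
  omega

end Pool.Agent.Results.MP_763321_co.HalfGraphFree
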